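import Pool.Agent.H149R3.GK.Stmts
import Pool.Agent.Helper879.ECD.Flow

set_option autoImplicit false

/-! Task FLOW of project H149-GK. -/

namespace Pool.Agent.H996R3.GK

open Finset Pool.Agent.H149R3.GK Pool.Agent.Helper879.ECD

theorem kv_surj : ∀ p : ZMod 2 × ZMod 2, p ≠ 0 → ∃ c : Fin 3, kv c = p := by
  unfold kv
  decide

/-- a single edge leaving a set of vertices is a bridge -/
theorem cross_ne_one {V : Type} [Fintype V] [DecidableEq V] (G : SimpleGraph V)
    [Fintype G.edgeSet] (hb : ∀ e : Sym2 V, ¬ G.IsBridge e) (a b : G.edgeSet → V)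
    (hab : ∀ e : G.edgeSet, e.1 = s(a e, b e)) (S : Finset V) : cross a b univ S ≠ 1 := by
  intro h
  unfold cross at h
  obtain ⟨e0, he0⟩ := Finset.card_eq_one.1 h
  have hcut : ∀ e, ¬ (a e ∈ S ↔ b e ∈ S) ↔ e = e0 := by
    intro e
    have : e ∈ univ.filter (fun e => ¬ (a e ∈ S ↔ b e ∈ S)) ↔ e ∈ ({e0} : Finset G.edgeSet) := by
      rw [he0]
    simpa using this
  have hstay : ∀ x y, (G.deleteEdges {e0.1}).Adj x y → (x ∈ S ↔ y ∈ S) := by
    intro x y hxy
    rw [SimpleGraph.deleteEdges_adj] at hxy
    obtain ⟨h1, h2⟩ := hxy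
    obtain ⟨e, he⟩ : ∃ e : G.edgeSet, e.1 = s(x, y) := ⟨⟨_, h1⟩, rfl⟩
    have h3 : e ≠ e0 := by
      intro h3
      apply h2
      rw [← he, h3]
      exact Set.mem_singleton _
    have h4 := not_not.1 (fun h5 => h3 ((hcut e).1 h5))
    have h6 := hab e
    rw [he] at h6
    rcases Sym2.eq_iff.1 h6 with ⟨h7, h8⟩ | ⟨h7, h8⟩
    · rw [h7, h8]
      exact h4
    · rw [h7, h8]
      exact h4.symm
  have hr : ∀ x y, (G.deleteEdges {e0.1}).Reachable x y → (x ∈ S ↔ y ∈ S) := by
    rintro x y ⟨w⟩
    induction w with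
    | nil => exact Iff.rfl
    | cons h _ ih => exact (hstay _ _ h).trans ih
  have hnb := hb s(a e0, b e0)
  rw [SimpleGraph.isBridge_iff, not_not, ← hab e0] at hnb
  exact ((hcut e0).2 rfl) (hr _ _ hnb)

theorem taskFlow : TaskFlow := by
  classical
  intro hPM V _ _ G _ hreg hbr
  have hab0 : ∀ e : G.edgeSet, ∃ p : V × V, e.1 = s(p.1, p.2) := by
    rintro ⟨e, he⟩
    induction e with
    | _ x y => exact ⟨(x, y), rfl⟩
  choose p hp using hab0
  let a : G.edgeSet → V := fun e => (p e).1
  let b : G.edgeSet → V := fun e => (p e).2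
  have hends : ∀ e : G.edgeSet, e.1 = s(a e, b e) := hp
  have hadj : ∀ e : G.edgeSet, G.Adj (a e) (b e) := by
    intro e
    have h1 := e.2
    rw [hends e] at h1
    exact h1
  have hab : ∀ e, a e ≠ b e := fun e => (hadj e).ne
  have hmem : ∀ (e : G.edgeSet) v, v ∈ e.1 ↔ v = a e ∨ v = b e := by
    intro e v
    rw [hends e, Sym2.mem_iff]
  have hsing : ∀ (e : G.edgeSet) v,
      ¬ (a e ∈ ({v} : Finset V) ↔ b e ∈ ({v} : Finset V)) ↔ v ∈ e.1 := by
    intro e v
    rw [hmem, Finset.mem_singleton, Finset.mem_singleton]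
    have := hab e
    constructor
    · intro h
      by_contra hcon
      push Not at hcon
      exact h ⟨fun h' => absurd h'.symm hcon.1, fun h' => absurd h'.symm hcon.2⟩
    · rintro (rfl | rfl) h
      · exact this (h.1 rfl).symm
      · exact this (h.2 rfl)
  have hc : ∀ v, cross a b univ {v} = 3 := by
    intro v
    rw [← hreg v, ← SimpleGraph.card_incidenceFinset_eq_degree]
    unfold cross
    apply Finset.card_bij (fun e _ => e.1)
    · intro e he
      rw [Finset.mem_filter, hsing] at he
      rw [SimpleGraph.mem_incidenceFinset]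
      exact ⟨e.2, he.2⟩
    · intro e _ e' _ h
      exact Subtype.ext h
    · intro e he
      rw [SimpleGraph.mem_incidenceFinset] at he
      refine ⟨⟨e, he.1⟩, ?_, rfl⟩
      rw [Finset.mem_filter, hsing]
      exact ⟨Finset.mem_univ _, he.2⟩
  have hb : ∀ S : Finset V, cross a b univ S ≠ 1 := cross_ne_one G hbr a b hends
  obtain ⟨M, hM1, hM⟩ := hPM V G.edgeSet a b hab hc hb
  have hMv : ∀ v, ∃ e : G.edgeSet, e ∈ M ∧ v ∈ e.1 ∧ ∀ e', e' ∈ M → v ∈ e'.1 → e' = e := by
    intro v
    have h1 := hM1 v
    unfold cross at h1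
    obtain ⟨e, he⟩ := Finset.card_eq_one.1 h1
    have h2 : ∀ e' : G.edgeSet, (e' ∈ M ∧ v ∈ e'.1) ↔ e' = e := by
      intro e'
      have : e' ∈ M.filter (fun e => ¬ (a e ∈ ({v} : Finset V) ↔ b e ∈ ({v} : Finset V))) ↔
          e' ∈ ({e} : Finset G.edgeSet) := by rw [he]
      rw [Finset.mem_filter, hsing, Finset.mem_singleton] at this
      exact this
    exact ⟨e, ((h2 e).2 rfl).1, ((h2 e).2 rfl).2, fun e' h3 h4 => (h2 e').1 ⟨h3, h4⟩⟩
  choose g hgM hgv hguniq using hMv
  -- the other end of an edge
  let oth : V → G.edgeSet → V := fun v e => if a e = v then b e else a e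
  have hoth : ∀ v (e : G.edgeSet), v ∈ e.1 → e.1 = s(v, oth v e) := by
    intro v e hv
    rw [hends e]
    rcases (hmem e v).1 hv with rfl | rfl
    · simp only [oth, if_true]
    · simp only [oth, if_neg (hab e)]
      exact Sym2.eq_swap
  let m : V → V := fun v => oth v (g v)
  have heg : ∀ v, (g v).1 = s(v, m v) := fun v => hoth v (g v) (hgv v)
  have hGadj : ∀ v, G.Adj v (m v) := by
    intro v
    have h1 := (g v).2
    rw [heg v] at h1
    exact h1
  have hne : ∀ v, m v ≠ v := fun v => (hGadj v).ne'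
  have hgm : ∀ v, g (m v) = g v := by
    intro v
    refine (hguniq (m v) (g v) (hgM v) ?_).symm
    rw [heg]; exact Sym2.mem_mk_right _ _
  have hm : ∀ v, m (m v) = v := by
    intro v
    have h1 := heg (m v)
    rw [hgm, heg] at h1
    rcases Sym2.eq_iff.1 h1 with ⟨h2, _⟩ | ⟨h2, _⟩
    · exact absurd h2.symm (hne v)
    · exact h2.symm
  -- the contraction
  let q : V → (Fg G m).ConnectedComponent := fun v => (Fg G m).connectedComponentMk v
  have hqF : ∀ e, e ∉ M → q (a e) = q (b e) := by
    intro e he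
    apply SimpleGraph.ConnectedComponent.eq.2
    apply SimpleGraph.Adj.reachable
    refine ⟨hadj e, ?_, ?_⟩
    · intro h
      apply he
      have h1 : e = g (a e) := by
        apply Subtype.ext
        rw [heg, ← h]
        exact hends e
      rw [h1]
      exact hgM _
    · intro h
      apply he
      have h1 : e = g (b e) := by
        apply Subtype.ext
        rw [heg, ← h, Sym2.eq_swap]
        exact hends e
      rw [h1]
      exact hgM _
  have : Fintype (Fg G m).ConnectedComponent := Fintype.ofFinite _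
  obtain ⟨ψ₁, ψ₂, hnz, hfl1, hfl2⟩ := exists_flow _ (fun e => q (a e)) (fun e => q (b e)) rfl (by
    intro Y
    have h1 : cn (fun e => q (a e)) (fun e => q (b e)) univ Y =
        cross a b univ (univ.filter (fun v => q v ∈ Y)) := by
      unfold cn cross
      congr 1
      apply Finset.filter_congr
      intro e _
      simp
    have h2 : cross a b univ (univ.filter (fun v => q v ∈ Y)) =
        cross a b M (univ.filter (fun v => q v ∈ Y)) := by
      unfold cross
      congr 1
      ext e
      constructor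
      · intro h
        have h3 := (Finset.mem_filter.1 h).2
        refine Finset.mem_filter.2 ⟨?_, h3⟩
        by_contra h4
        apply h3
        have h5 := hqF e h4
        simp only [Finset.mem_filter, Finset.mem_univ, true_and, h5]
      · intro h
        exact Finset.mem_filter.2 ⟨Finset.mem_univ _, (Finset.mem_filter.1 h).2⟩
    rw [h1]
    refine ⟨hb _, ?_⟩
    intro h3
    have h4 := hM _ h3
    rw [← h2, h3] at h4
    omega)
  have hbal : ∀ ψ : G.edgeSet → F2, IsFlow (fun e => q (a e)) (fun e => q (b e)) ψ →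
      ∀ K : (Fg G m).ConnectedComponent, ∑ v : V, (if q v = K then ψ (g v) else 0) = 0 := by
    intro ψ hψ K
    have h1 := hψ (fun κ => if κ = K then 1 else 0)
    refine Eq.trans ?_ h1
    rw [← Finset.sum_fiberwise (s := (univ : Finset V)) (g := g)]
    apply Finset.sum_congr rfl
    intro e _
    by_cases he : e ∈ M
    · have h3 : univ.filter (fun v => g v = e) = {a e, b e} := by
        ext v
        rw [Finset.mem_filter, Finset.mem_insert, Finset.mem_singleton, ← hmem]
        constructor
        · rintro ⟨_, rfl⟩; exact hgv v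
        · intro hv; exact ⟨Finset.mem_univ _, (hguniq v e he hv).symm⟩
      have h4 : ∀ v ∈ univ.filter (fun v => g v = e), (if q v = K then ψ (g v) else 0) =
          ψ e * (if q v = K then 1 else 0) := by
        intro v hv
        rw [(Finset.mem_filter.1 hv).2, mul_ite, mul_one, mul_zero]
      rw [Finset.sum_congr rfl h4, h3, Finset.sum_pair (hab e)]
      ring
    · have h3 : univ.filter (fun v => g v = e) = ∅ := by
        rw [Finset.filter_eq_empty_iff]
        intro v _ hv
        exact he (hv ▸ hgM v)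
      rw [h3, Finset.sum_empty]
      simp only [hqF e he]
      rw [f2_add_self, mul_zero]
  have hcc : ∀ e, ∃ c : Fin 3, kv c = (ψ₁ e, ψ₂ e) := by
    intro e
    apply kv_surj
    intro h
    rcases hnz e with h1 | h1
    · exact h1 (congrArg Prod.fst h)
    · exact h1 (congrArg Prod.snd h)
  choose cc hcc using hcc
  refine ⟨m, fun v => cc (g v), hGadj, hm, fun v => by beta_reduce; rw [hgm], ?_⟩
  intro K
  have hK1 := hbal ψ₁ hfl1 K
  have hK2 := hbal ψ₂ hfl2 K
  refine Prod.ext ?_ ?_
  · rw [Prod.fst_sum]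
    refine Eq.trans ?_ hK1
    apply Finset.sum_congr rfl
    intro v _
    rw [apply_ite Prod.fst, hcc]
    rfl
  · rw [Prod.snd_sum]
    refine Eq.trans ?_ hK2
    apply Finset.sum_congr rfl
    intro v _
    rw [apply_ite Prod.snd, hcc]
    rfl

end Pool.Agent.H996R3.GK
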